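import Mathlib

/-!
# Weak `ℳ`-structures

The subspaces `A`, `B` of `L` with their multiplications are given as algebras `A`, `B` with injective
linear maps into `L`.
-/

namespace Pool.Agent.V11196.MStr

/-- The map `f` is bilinear. -/
def IsBilin {U V W : Type} [AddCommGroup U] [Module ℂ U] [AddCommGroup V] [Module ℂ V]
    [AddCommGroup W] [Module ℂ W] (f : U → V → W) : Prop :=
  ∃ g : U →ₗ[ℂ] V →ₗ[ℂ] W, ∀ u v, g u v = f u v

/-- `f` is a right action of the algebra `A` on `L` which restricts on `A ⊆ L` (embedded by `em`) to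
the multiplication of `A`. -/
structure IsRightAction {A L : Type} [Ring A] [Algebra ℂ A] [AddCommGroup L] [Module ℂ L]
    (em : A → L) (f : L → A → L) : Prop where
  bilin : IsBilin f
  act_one : ∀ v, f v 1 = v
  act_mul : ∀ v a a', f v (a * a') = f (f v a) a'
  restrict : ∀ a a', f (em a) a' = em (a * a')

/-- `f` is a left action of the algebra `B` on `L` which restricts on `B ⊆ L` (embedded by `em`) to
the multiplication of `B`. -/
structure IsLeftAction {B L : Type} [Ring B] [Algebra ℂ B] [AddCommGroup L] [Module ℂ L]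
    (em : B → L) (f : B → L → L) : Prop where
  bilin : IsBilin f
  act_one : ∀ v, f 1 v = v
  act_mul : ∀ b b' v, f (b * b') v = f b (f b' v)
  restrict : ∀ b b', f b (em b') = em (b * b')

/-- `form` is a nondegenerate symmetric bilinear form on `L` for which `A` and `B` are isotropic, with
`(b₁ b₂, v) = (b₁, b₂ v)` and `(v, a₁ a₂) = (v a₁, a₂)`. -/
structure IsCompatibleForm {A B L : Type} [Ring A] [Ring B] [AddCommGroup L] [Module ℂ L]
    (emA : A → L) (emB : B → L) (right : L → A → L) (left : B → L → L) (form : L → L → ℂ) :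
    Prop where
  bilin : IsBilin form
  symm : ∀ v w, form v w = form w v
  nondeg : ∀ v, (∀ w, form v w = 0) → v = 0
  isotropic_A : ∀ a a', form (emA a) (emA a') = 0
  isotropic_B : ∀ b b', form (emB b) (emB b') = 0
  form_B : ∀ b b' v, form (emB (b * b')) v = form (emB b) (left b' v)
  form_A : ∀ v a a', form v (emA (a * a')) = form (right v a) (emA a')

/-- A weak `ℳ`-structure on a complex vector space `L`: subspaces `A`, `B` (the images of the
injective maps `emA`, `emB`) with associative multiplications having the same unit `1`, with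
`A ∩ B = ℂ 1`, a left action of `B` and a right action of `A` on `L` which commute and restrict to
these multiplications, and a compatible nondegenerate symmetric bilinear form. -/
structure WeakMStructure (A B L : Type) [Ring A] [Algebra ℂ A] [Ring B] [Algebra ℂ B]
    [AddCommGroup L] [Module ℂ L] where
  /-- the inclusion of `A` -/
  emA : A →ₗ[ℂ] L
  /-- the inclusion of `B` -/
  emB : B →ₗ[ℂ] L
  emA_injective : Function.Injective emA
  emB_injective : Function.Injective emB
  one_eq : emA 1 = emB 1
  inter : ∀ a b, emA a = emB b → ∃ c : ℂ, emA a = c • emA 1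
  /-- the right action of `A` -/
  right : L → A → L
  isRightAction : IsRightAction emA right
  /-- the left action of `B` -/
  left : B → L → L
  isLeftAction : IsLeftAction emB left
  comm : ∀ b v a, right (left b v) a = left b (right v a)
  /-- the bilinear form -/
  form : L → L → ℂ
  isCompatibleForm : IsCompatibleForm emA emB right left form

/-- The maps `φ, ψ, e` identify the actions with matrix multiplications. -/
def IsBimoduleMap {A B L : Type} {r s : ℕ} {mult : Fin r → Fin s → ℕ} {m : Fin r → ℕ}
    {n : Fin s → ℕ} (right : L → A → L) (left : B → L → L)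
    (φ : A → ∀ i, Matrix (Fin (m i)) (Fin (m i)) ℂ) (ψ : B → ∀ j, Matrix (Fin (n j)) (Fin (n j)) ℂ)
    (e : L → ∀ i j, Fin (mult i j) → Matrix (Fin (n j)) (Fin (m i)) ℂ) : Prop :=
  (∀ b v i j k, e (left b v) i j k = ψ b j * e v i j k) ∧
    (∀ v a i j k, e (right v a) i j k = e v i j k * φ a i)

/-- The weak `ℳ`-structure has multiplicity matrix `mult` (of size `r × s`) and dimension vector
`(m; n)`: `A ≅ ⨁ End(V i)`, `B ≅ ⨁ End(W j)` with `dim (V i) = m i`, `dim (W j) = n j`, and, as a
module over both algebras, `L ≅ ⨁ Hom(V i, W j)^(mult i j)`. -/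
def WeakMStructure.HasType {A B L : Type} [Ring A] [Algebra ℂ A] [Ring B] [Algebra ℂ B]
    [AddCommGroup L] [Module ℂ L] (S : WeakMStructure A B L)
    {r s : ℕ} (mult : Fin r → Fin s → ℕ) (m : Fin r → ℕ) (n : Fin s → ℕ) : Prop :=
  ∃ (φ : A ≃ₐ[ℂ] (∀ i, Matrix (Fin (m i)) (Fin (m i)) ℂ))
    (ψ : B ≃ₐ[ℂ] (∀ j, Matrix (Fin (n j)) (Fin (n j)) ℂ))
    (e : L ≃ₗ[ℂ] (∀ i j, Fin (mult i j) → Matrix (Fin (n j)) (Fin (m i)) ℂ)),
    IsBimoduleMap S.right S.left φ ψ e

end Pool.Agent.V11196.MStr
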